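import Pool.Agent.H10.Sharp2

namespace Pool.Agent.Results.MP_301b8f_al.Always
open Pool.Agent.H10.Sharp

theorem result (L : FirstOrder.Language.{0, 0}) [L.IsRelational] (M : Type) [L.Structure M]
    [Countable M] [Infinite M] (uh : UH L M) (sap : SAP L M) (k : ℕ) (hk : 1 ≤ k)
    (r : Rigid L M k) : ∃ (G : Type) (_ : Group G) (_ : MulAction G M), Sharp L M G k := by
  classical
  refine main uh (fun A V x hx => ?_) r hk
  obtain ⟨g, h⟩ := noalg uh sap A V hx
  exact ⟨g.toEquiv, aut_same g id, h⟩

end Pool.Agent.Results.MP_301b8f_al.Always
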